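import Pool.Agent.Lead.Srch

namespace Pool.Agent.Results.MP_61cfb3_pr.Zigzag

open Pool.Agent.Lead.Srch

theorem result : ∀ p : ℝ, 0 < p → p < 1 → ∃ S : ℝ → ℝ, S 0 = 0 ∧ LipschitzWith 1 S ∧
    (∀ H ≠ 0, ∀ T, (leftEnds S H ∩ Set.Iic T).Finite) ∧
    ⨆ (H : ℝ) (_ : H ≠ 0), cost p S H / ENNReal.ofReal |H| <
      ENNReal.ofReal (p / (2 - p) + 8 / p) := by
  intro p hp hp1
  obtain ⟨S, h0, h1, h2, V, V0, V1, h3⟩ := main hp hp1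
  refine ⟨S, h0, h1, h2, lt_of_le_of_lt (iSup₂_le fun H hH => ?_)
    ((ENNReal.ofReal_lt_ofReal_iff (V0.trans_lt V1)).2 V1)⟩
  refine ENNReal.div_le_of_le_mul ?_
  rw [← ENNReal.ofReal_mul V0]
  exact h3 H hH

end Pool.Agent.Results.MP_61cfb3_pr.Zigzag
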